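import Pool.Agent.Helper56_GEN.Fin
import Pool.Agent.Helper30_Simp2.Assembly
import Pool.Agent.Helper75_GEN.RAT
import Pool.Agent.Helper64_GEN.STR
import Pool.Agent.Helper32_GEN.BDA
import Pool.Agent.Helper48_GEN.ERA
import Pool.Agent.Helper28_GEN.CHN
import Pool.Agent.Helper51_GEN.TRN
import Pool.Agent.Helper88_GEN.COR
import Pool.Agent.Helper32_GEN.GLB
import Pool.Agent.Helper81_GEN.DSA
import Pool.Agent.Helper47_GEN.DSB
import Pool.Agent.Helper80_GEN.GWA
import Pool.Agent.Helper47_GEN.GWB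
import Pool.Agent.Helper6_GEN.ROO
import Pool.Agent.Helper66_GEN.RAD
import Pool.Agent.Helper50_GEN.KPA
import Pool.Agent.Helper34_GEN.KPR
import Pool.Agent.Helper49_GEN.KRY
import Pool.Agent.Helper67_GEN.PRD
import Pool.Agent.Helper23_GEN.LCW
import Pool.Agent.Helper92_GEN.LCK
import Pool.Agent.Helper19_GEN.CPF
import Pool.Agent.Helper91_GEN.ZGY
import Pool.Agent.Helper95_GEN.ZAK
import Pool.Agent.Helper71_GEN.ZSK
import Pool.Agent.Helper10_GEN.TRD
import Pool.Agent.Helper38_GEN.EMP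
import Pool.Agent.Helper51_GEN.DEX
import Pool.Agent.Helper64_GEN.SMO
import Pool.Agent.Helper66_GEN.DCA
import Pool.Agent.Helper44_GEN.DCB
import Pool.Agent.Helper28_GEN.STK
import Pool.Agent.Helper2_GEN.AFK
import Pool.Agent.Helper21_GEN.CLK
import Pool.Agent.Helper72_GEN.REC
import Pool.Agent.Helper76_GEN.USO
import Pool.Agent.Helper41_GEN.UNR
import Pool.Agent.Helper78_GEN.TRF
import Pool.Agent.Helper33_GEN.SEQ
import Pool.Agent.Helper24_GEN.GDA
import Pool.Agent.Helper71_GEN.ZFK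
import Pool.Agent.Helper10_GEN.VKR
import Pool.Agent.Helper65_GEN.RHA
import Pool.Agent.Helper78_GEN.RHB
import Pool.Agent.Helper21_GEN.LMX
import Pool.Agent.Helper51_GEN.SWD
import Pool.Agent.Helper77_GEN.SWI
import Pool.Agent.Helper50_GEN.CNG

/-!
# Squad GEN: assembly
-/

set_option autoImplicit false

namespace Pool.Agent.GEN.H56

open Pool.Agent.Helper6_Mono Pool.Agent.Helper30_Simp Pool.Agent.Helper30_Simp2 Pool.Agent.GEN

theorem rooStmt : RooStmt :=
  H6.roo (H64.str H75.rat)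
    (H88.cor (Helper30_Simp2.H26.alg2 Helper30_Simp.H94.ave Helper30_Simp2.H73.tnum) H32.bda
      (H28.chn H48.era) H51.trn)
    (H47.dsb H32.glb H81.dsa) (H47.gwb H80.gwa)

theorem kprStmt : KprStmt := H34.kpr (H50.kpa H66.rad)

theorem kryStmt : KryStmt := H49.kry H80.gwa

theorem zskStmt : ZskStmt := H71.zsk (H95.zak H23.lcw (H92.lck H67.prd) H19.cpf H91.zgy)

theorem cngStmt : CngStmt :=
  H50.cng H44.dcb (H78.rhb H44.dcb (H65.rha H44.dcb)) H21.lmx (H51.swd H10.vkr)
    (H77.swi H44.dcb (H65.rha H44.dcb) (H51.swd H10.vkr))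

theorem zfinKStmt : ZfinKStmt :=
  H71.zfk (H64.smo H51.dex)
    (H21.clk (H38.emp H10.trd) (H28.stk H66.dca H44.dcb) (H2.afk H66.dca (H28.stk H66.dca H44.dcb)))
    (H72.rec H44.dcb) (H76.uso H44.dcb)
    (H24.gda (H72.rec H44.dcb) (H41.unr H44.dcb (H72.rec H44.dcb)) H78.trf (H33.seq zskStmt))

/-- the property of the slopes which are removed -/
def KZ (σ : Type) [Fintype σ] (M : Finset (σ →₀ ℕ)) (x : ℚ) : Prop := KRay M x ∨ AllUB M x

theorem zshape : ZShape KZ := by
  intro k _ _ σ _ R _ L χ f hf hA B hB1 hB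
  exact zfinKStmt k σ R L χ f hf hA (fun J => cngStmt σ f.support J) B hB1 hB

/-- **the general theorem**: algebraically independent coefficients, and every killed slope has
separated weak stable sets or all its flat cells have unique base directions -/
theorem main_ind {k : Type} [Field k] [Algebra k ℂ] {σ : Type} [Fintype σ]
    {f : MvPolynomial σ k} (hf : ∀ c : k, f ≠ MvPolynomial.C c) (hA : AlgIndCoeff f)
    (hK : ∀ x : ℚ, x ≠ 1 → Killed f.support x → KRay f.support x ∨ AllUB f.support x) :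
    Helper8_CR.Mon f :=
  main_gen zshape rooStmt hf hA hK

/-- data for a root exclude killed slopes -/
theorem not_killed {σ : Type} [Fintype σ] {M : Finset (σ →₀ ℕ)} {x : ℚ} (h : RooData M x) :
    ¬ Killed M x := by
  obtain ⟨κ, N, B, h1, h2, h3, h4, h5, h6, h7, h8, h9⟩ := h
  intro hk
  obtain ⟨A, hA, j, hj, hu⟩ := hk κ N B ⟨h1, h2, h3, h4, h5, h6, h7⟩ h9
  obtain ⟨l, hl, hl2⟩ := h8 A hA j hj.1 hj.2.1 hj.2.2
  exact hl (hu l hl2)

/-- **the theorem for supports with at most one entry equal to `1` in every exponent vector** -/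
theorem main_S1 {k : Type} [Field k] [Algebra k ℂ] {σ : Type} [Fintype σ]
    {f : MvPolynomial σ k} (hf : ∀ c : k, f ≠ MvPolynomial.C c) (hA : AlgIndCoeff f)
    (h1 : S1 f.support) : Helper8_CR.Mon f := by
  refine main_ind hf hA fun x _ hk => Or.inl ?_
  have hM : f.support.Nonempty := by
    rw [Finset.nonempty_iff_ne_empty]
    intro h0
    exact hf 0 (by rw [map_zero]; exact MvPolynomial.support_eq_empty.1 h0)
  rcases kprStmt σ f.support h1 x with h | h
  · exact kryStmt σ f.support hM h1 x h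
  · exact absurd hk (not_killed h)

end Pool.Agent.GEN.H56
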