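import Pool.Agent.Helper56_GEN.Par
import Pool.Agent.Helper56_GEN.Asm

/-!
# Squad GEN: the theorem for all supports, relative to the rows KPI and ZAI
-/

set_option autoImplicit false

namespace Pool.Agent.GEN.H56

open Pool.Agent.Helper6_Mono Pool.Agent.Helper30_Simp Pool.Agent.Helper30_Simp2 Pool.Agent.GEN

/-- isolated weak stable sets, as a property of the slopes -/
def KI (σ : Type) [Fintype σ] (M : Finset (σ →₀ ℕ)) (x : ℚ) : Prop := KIso M x

theorem zfinI (hZ : ZaiStmt) : ZfinP KI :=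
  zfkP (H64.smo H51.dex)
    (H21.clk (H38.emp H10.trd) (H28.stk H66.dca H44.dcb) (H2.afk H66.dca (H28.stk H66.dca H44.dcb)))
    (H72.rec H44.dcb) (H76.uso H44.dcb)
    (gdaP (H72.rec H44.dcb) (H41.unr H44.dcb (H72.rec H44.dcb)) H78.trf (seqP (zskP hZ)))

theorem zshapeI (hZ : ZaiStmt) : ZShape KI := by
  intro k _ _ σ _ R _ L χ f hf hA B hB1 hB
  exact zfinI hZ k σ R L χ f hf hA (fun J => cngStmt σ f.support J) B hB1
    (fun x hx => Or.inl (hB x hx))

/-- **the theorem for all supports** -/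
theorem main_all (hK : KpiStmt) (hZ : ZaiStmt) {k : Type} [Field k] [Algebra k ℂ] {σ : Type}
    [Fintype σ] {f : MvPolynomial σ k} (hf : ∀ c : k, f ≠ MvPolynomial.C c)
    (hA : AlgIndCoeff f) : Helper8_CR.Mon f :=
  main_gen (zshapeI hZ) rooStmt hf hA fun x _ hk => hK σ f.support x hk

end Pool.Agent.GEN.H56
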