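import Pool.Agent.Helper56_GEN.TorE
import Pool.Agent.Helper58_GEN.AsmU
import Pool.Agent.Helper60_GEN.AsmPT
import Pool.Agent.Helper63_KTB.AsmK
import Pool.Agent.Helper66_GEN.BSM
import Pool.Agent.Helper88_GEN.EMN
import Pool.Agent.Helper67_GEN.TSD
import Pool.Agent.Helper77_GEN.TSI

/-!
# Squad GEN: the final theorem
-/

set_option autoImplicit false

namespace Pool.Agent.GEN.H56

open Pool.Agent.Helper8_CR Pool.Agent.GEN

/-- **Zariski general coefficients, all supports, stable form** -/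
theorem last (τ : Type) [Fintype τ] (M : Finset (τ →₀ ℕ)) :
    ∃ H : MvPolynomial M ℚ, H ≠ 0 ∧
      ∀ (k : Type) [Field k] [Algebra k ℂ] (G : MvPolynomial τ k), G.support = M →
      ∀ (a : ℂ) (t : τ → ℂ), a ≠ 0 → (∀ i, t i ≠ 0) →
      MvPolynomial.aeval (fun α : M => a * ((α : τ →₀ ℕ).prod fun i n => t i ^ n) *
        algebraMap k ℂ (G.coeff (α : τ →₀ ℕ))) H ≠ 0 →
      ∀ (σ : Type) [Finite σ] (f : MvPolynomial σ k), (∀ c : k, f ≠ MvPolynomial.C c) →
      ∀ (r : ℕ) (Φ : MvPolynomial τ k ≃ₐ[k] MvPolynomial (SV σ r) k), Φ G = stab f r → Mon f :=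
  main_generic H58.gncStmt Pool.Agent.KTB.H63.kpiStmt H60.zaiStmt H88.emn H77.tsi H67.tsd H66.bsm τ M

end Pool.Agent.GEN.H56
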