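import Pool.Agent.GEN.DefsI
import Pool.Agent.GEN.StmtsZC
import Pool.Agent.Helper71_GEN.ZSK
import Pool.Agent.Helper33_GEN.SEQ
import Pool.Agent.Helper24_GEN.GDA
import Pool.Agent.Helper71_GEN.ZFK

/-!
# Squad GEN: the end of the zeta side for an arbitrary property of the removed slopes
-/

set_option autoImplicit false
set_option linter.unusedVariables false
set_option linter.unusedSectionVars false

namespace Pool.Agent.GEN.H56

open PowerSeries Finset Pool.Agent.Helper6_Mono Pool.Agent.Helper30_Simp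
  Pool.Agent.Helper30_Simp.H32 Pool.Agent.Helper30_Simp2 Pool.Agent.Helper30_Simp2.H63
  Pool.Agent.GEN Pool.Agent.GEN.H71 Pool.Agent.GEN.H33 Pool.Agent.GEN.H24

/-- a property of the slopes -/
abbrev Slp : Type 1 := ∀ (σ : Type) [Fintype σ], Finset (σ →₀ ℕ) → ℚ → Prop

/-- the operator kills the flat cones -/
def ZakP (KP : Slp) : Prop :=
  ∀ (σ : Type) [Fintype σ] (M : Finset (σ →₀ ℕ)), M.Nonempty → ∀ x : ℚ, KP σ M x →
    ∀ (P : Set (ℕ × ℕ)) (z : Finset (σ →₀ ℕ) → Finset σ → ℤ⟦X⟧), KRel M X z (fun _ => 0) →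
      ∀ R : Finset (Wa M), Flat M x R → PZ M z * Xs M ℤ⟦X⟧ R ∈ H40.RI M P

open scoped Classical in
/-- the scalar version -/
def ZskP (KP : Slp) : Prop :=
  ∀ (σ : Type) [Fintype σ] (M : Finset (σ →₀ ℕ)), M.Nonempty → ∀ x : ℚ, x ≠ 1 → KP σ M x →
    ∀ (c : Finset σ → ℤ⟦X⟧) (y1 y0 : Finset (σ →₀ ℕ) → Finset σ → ℤ⟦X⟧),
      (∀ J, y1 ∅ J = 0) → (∀ J, y0 ∅ J = c J) →
      KRel M X y1 (fun J => X * c J) → KRel M X y0 (fun J => X * c J) →
      RQ (X : ℤ⟦X⟧) (steps ((slopes M ∪ {1}) \ {x})) (fun m =>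
        ∑ I ∈ M.powerset, ∑ J ∈ (univ : Finset σ).powerset, if I = ∅ then 0 else
          y1 I J * gfc M I J m + y0 I J * ∑ l ∈ range m, X ^ (m - l) * gfc M I J l)

/-- sequences -/
def SeqP (KP : Slp) : Prop :=
  ∀ (σ : Type) [Fintype σ] (M : Finset (σ →₀ ℕ)), M.Nonempty → ∀ B : Set ℚ, 1 ∉ B →
    (∀ x ∈ B, KP σ M x ∨ AllUB M x) → B.Nonempty → ∀ (R : Type 1) [CommRing R] (L : Rˣ)
    (J : Finset σ) (c : ℤ⟦X⟧) (y1 y0 : Finset (σ →₀ ℕ) → ℤ⟦X⟧), y1 ∅ = 0 → y0 ∅ = c →
    KRelJ M X J y1 (X * c) → KRelJ M X J y0 (X * c) →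
    ∀ (D : ℤ⟦X⟧) (z1 z0 : Finset (σ →₀ ℕ) → Polynomial ℤ),
    (∀ I : Finset (σ →₀ ℕ), I ⊆ M → I.Nonempty → ∀ l,
      (z1 I : ℤ⟦X⟧) * cs X M I J l l = D * y1 I * gfc M I J l) →
    (∀ I : Finset (σ →₀ ℕ), I ⊆ M → I.Nonempty → ∀ l,
      (z0 I : ℤ⟦X⟧) * cs X M I J l l = D * y0 I * gfc M I J l) →
    Good L M B J (fun I => evL L (z1 I)) (fun I => evL L (z0 I))

open scoped Classical in
/-- all coefficient functions -/
def GdaP (KP : Slp) : Prop :=
  ∀ (σ : Type) [Fintype σ] (M : Finset (σ →₀ ℕ)), M.Nonempty → ∀ B : Set ℚ, 1 ∉ B →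
    (∀ x ∈ B, KP σ M x ∨ AllUB M x) → B.Nonempty → ∀ (R : Type 1) [CommRing R] (L : Rˣ)
    (J : Finset σ), Conf M J →
    ∀ (P : Finset (σ →₀ ℕ) → Option (Finset (σ →₀ ℕ)) → Polynomial ℤ), IsP M J P →
    ∀ (τ : R) (W1 W0 : Finset (σ →₀ ℕ) → R), W1 ∅ = 0 → W0 ∅ = τ →
    Good L M B J
      (fun I => evI ((L : R) - 1) (P I none) * τ +
        ∑ I₁ ∈ M.powerset, evI ((L : R) - 1) (P I (some I₁)) * W1 I₁)
      (fun I => evI ((L : R) - 1) (P I none) * τ +
        ∑ I₁ ∈ M.powerset, evI ((L : R) - 1) (P I (some I₁)) * W0 I₁)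

/-- end of the zeta side -/
def ZfinP (KP : Slp) : Prop :=
  ∀ (k : Type) [Field k] [CharZero k] (σ : Type) [Fintype σ] (R : Type 1) [CommRing R] (L : Rˣ)
    (χ : SInv k (fun _ : σ => (0 : QZ)) L) (f : MvPolynomial σ k), f ≠ 0 →
    AlgebraicIndependent ℚ (fun α : f.support => f.coeff (α : σ →₀ ℕ)) →
    (∀ J, Conf f.support J) →
    ∀ B : Set ℚ, 1 ∉ B → (∀ x ∈ B, KP σ f.support x ∨ AllUB f.support x) →
    ∃ a : ℕ → R, a 0 = 0 ∧ RP L (steps ((slopes f.support ∪ {1}) \ B)) a ∧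
      ∀ (m : ℕ) (hm : m ≠ 0) (hω : m • ((((1 : ℚ) / m : ℚ)) : QZ) = 0),
        a m = Li L ^ (m * Fintype.card σ) *
          χ.χ ((FibK k σ ((((1 : ℚ) / m : ℚ)) : QZ) m hω).app
            (Jet f Set.univ m ((((1 : ℚ) / m : ℚ)) : QZ)))

theorem zskP {KP : Slp} (hA : ZakP KP) : ZskP KP := by
  classical
  intro σ _ M hM x hx hK c y1 y0 h1 h0 hy1 hy0
  obtain ⟨hid, hadd, hC, hET, hcell⟩ := H40.zg σ M hM
  clear hid
  set P : Set (ℕ × ℕ) := steps ((slopes M ∪ {1}) \ {x}) with hPdef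
  set a : Ideal (MvPolynomial (Wa M) ℤ⟦X⟧) := H40.RI M P with hadef
  have ha1 : ∀ u : σ → ℕ, Ev M ℤ⟦X⟧ u - MvPolynomial.C ((X : ℤ⟦X⟧) ^ (∑ i, u i)) ∈ a :=
    H40.Ev_mem M P
  have ha3 : ∀ r N : ℕ, (r, N) ∈ P → ∀ p,
      (ET M ℤ⟦X⟧ ^ N - MvPolynomial.C ((X : ℤ⟦X⟧) ^ r)) * p ∈ a → p ∈ a := by
    intro r N hP p hp h
    refine RQ.step _ r N hP ((hp h).congr fun m => ?_)
    rw [sub_mul, H40.val_sub, H40.val_ET_pow_mul, H40.val_C_mul]
  have ha4 : ∀ p ∈ a, RQ (X : ℤ⟦X⟧) P (val M p 0) := fun p hp => hp 0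
  have hunit : ∀ n : ℕ, n ≠ 0 → IsUnit (1 - (X : ℤ⟦X⟧) ^ n) := by
    intro n hn
    rw [PowerSeries.isUnit_iff_constantCoeff]
    simp [hn]
  have hfac : ∀ (κ : σ → ℕ) (N : ℕ), IsFacet M κ → (∃ α ∈ face M κ, dot κ α = N) →
      ((∑ i, κ i : ℕ) : ℚ) ≠ x * N →
      ∀ p, (ET M ℤ⟦X⟧ ^ N - MvPolynomial.C ((X : ℤ⟦X⟧) ^ (∑ i, κ i))) * p ∈ a → p ∈ a := by
    rintro κ N hκ ⟨α, hα, hN⟩ hne p hp
    have hN0 : 0 < N := by
      rw [← hN]
      exact hκ.1 α hα.1
    refine ha3 _ N ?_ p hp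
    refine ⟨hN0, ?_, ?_⟩
    · left
      refine ⟨κ, hκ, α, hα, ?_⟩
      rw [hN]
    · intro h
      rw [Set.mem_singleton_iff] at h
      apply hne
      have : (N : ℚ) ≠ 0 := by exact_mod_cast hN0.ne'
      rw [← h]
      field_simp
  -- the relations
  have hrelz : ∀ y : Finset (σ →₀ ℕ) → Finset σ → ℤ⟦X⟧, KRel M X y (fun J => X * c J) →
      KRel M X (fun I J => y I J - X * c J) (fun _ => 0) := by
    intro y hy I J K hI hd hK'
    have e1 := hy I J K hI hd hK'
    have e2 : ∑ K' ∈ K.powerset, (1 - (X : ℤ⟦X⟧)) ^ K'.card * X ^ (K.card - K'.card) = 1 := by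
      rw [Finset.sum_pow_mul_eq_add_pow]
      simp
    show ∑ K' ∈ K.powerset, (1 - (X : ℤ⟦X⟧)) ^ K'.card * X ^ (K.card - K'.card) *
      (y (keep I K K') J - X * c J) = 0
    have e3 : ∀ K' ∈ K.powerset, (1 - (X : ℤ⟦X⟧)) ^ K'.card * X ^ (K.card - K'.card) *
        (y (keep I K K') J - X * c J) = (1 - (X : ℤ⟦X⟧)) ^ K'.card * X ^ (K.card - K'.card) *
          y (keep I K K') J - (1 - (X : ℤ⟦X⟧)) ^ K'.card * X ^ (K.card - K'.card) *
            (X * c J) := fun K' _ => by rw [mul_sub]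
    rw [Finset.sum_congr rfl e3, Finset.sum_sub_distrib, ← Finset.sum_mul, e2, e1]
    ring
  have hPZ : ∀ z : Finset (σ →₀ ℕ) → Finset σ → ℤ⟦X⟧, KRel M X z (fun _ => 0) → PZ M z ∈ a := by
    intro z hz
    have e := H73.red H7.ext2 hM x (X : ℤ⟦X⟧) a hunit ha1 hfac (PZ M z) _ ∅ rfl
      (fun S' _ hf => hA σ M hM x hK P z hz S' hf)
    have e0 : Xs M ℤ⟦X⟧ (∅ : Finset (Wa M)) = 1 := by
      simp [Xs]
    rw [e0, mul_one] at e
    exact e
  -- the two elements of the ideal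
  have hT1 := hPZ _ (hrelz y1 hy1)
  have hT0 := hPZ _ (hrelz y0 hy0)
  unfold PZ at hT1 hT0
  set T1 := ∑ I ∈ M.powerset, ∑ J ∈ (univ : Finset σ).powerset,
        MvPolynomial.C (y1 I J - X * c J) * cellP M ℤ⟦X⟧ I J with hT1def
  set T0 := ∑ I ∈ M.powerset, ∑ J ∈ (univ : Finset σ).powerset,
        MvPolynomial.C (y0 I J - X * c J) * cellP M ℤ⟦X⟧ I J with hT0def
  have hp : (ET M ℤ⟦X⟧ * T1 + (MvPolynomial.C (-X) * T1 + MvPolynomial.C X * T0)) ∈ a :=
    a.add_mem (a.mul_mem_left _ hT1) (a.add_mem (a.mul_mem_left _ hT1) (a.mul_mem_left _ hT0))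
  have hRQ := ha4 _ hp
  -- linearity
  have hval0 : ∀ N, val M (0 : MvPolynomial (Wa M) ℤ⟦X⟧) 0 N = 0 := by
    intro N
    have := hadd 0 0 0 N
    rw [add_zero] at this
    exact left_eq_add.1 this
  have hsum : ∀ {ι : Type} (s : Finset ι) (F : ι → MvPolynomial (Wa M) ℤ⟦X⟧) (N : ℕ),
      val M (∑ i ∈ s, F i) 0 N = ∑ i ∈ s, val M (F i) 0 N := by
    intro ι s F N
    induction s using Finset.induction_on with
    | empty => simp [hval0]
    | insert i s hi ih => rw [Finset.sum_insert hi, Finset.sum_insert hi, hadd, ih]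
  set g : Finset (σ →₀ ℕ) → Finset σ → ℕ → ℤ⟦X⟧ :=
    fun I J N => val M (cellP M ℤ⟦X⟧ I J) 0 N with hg
  have hV : ∀ (z : Finset (σ →₀ ℕ) → Finset σ → ℤ⟦X⟧) (N : ℕ),
      val M (∑ I ∈ M.powerset, ∑ J ∈ (univ : Finset σ).powerset,
        MvPolynomial.C (z I J) * cellP M ℤ⟦X⟧ I J) 0 N =
      ∑ I ∈ M.powerset, ∑ J ∈ (univ : Finset σ).powerset, z I J * g I J N := by
    intro z N
    rw [hsum]
    refine Finset.sum_congr rfl fun I _ => ?_
    rw [hsum]
    refine Finset.sum_congr rfl fun J _ => ?_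
    rw [hC]
  -- the relation between the cells with `I = ∅` and the others
  have hrel : ∀ J N, g ∅ J N = ∑ I ∈ M.powerset, g I J (N + 1) := by
    intro J N
    simp only [hg]
    rw [← hsum, H28.sum_cellP, H28.cellP_empty, hET]
  have hgf : ∀ I ∈ M.powerset, I ≠ ∅ → ∀ J N, gfc M I J N = g I J N := by
    intro I hI hI0 J N
    rw [hg]
    exact (hcell I J (Finset.mem_powerset.1 hI) (Finset.nonempty_iff_ne_empty.2 hI0) N).symm
  -- the step with slope one
  refine RQ.step _ 1 1 ?_ ?_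
  · refine ⟨one_pos, ?_, ?_⟩
    · right
      simp
    · intro h
      rw [Set.mem_singleton_iff] at h
      apply hx
      rw [← h]
      norm_num
  refine H32.RQ_congr hRQ fun m => ?_
  rw [hadd, hadd, hET, hC, hC, hT1def, hT0def, hV, hV, hV]
  have key : ∀ I ∈ M.powerset, ∀ J ∈ (univ : Finset σ).powerset,
      (y1 I J - X * c J) * g I J (m + 1) + (-X * ((y1 I J - X * c J) * g I J m) +
        X * ((y0 I J - X * c J) * g I J m)) =
      ((if I = ∅ then 0 else y1 I J * gfc M I J (m + 1) +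
          y0 I J * ∑ l ∈ range (m + 1), X ^ (m + 1 - l) * gfc M I J l) -
        X ^ 1 * (if I = ∅ then 0 else y1 I J * gfc M I J m +
          y0 I J * ∑ l ∈ range m, X ^ (m - l) * gfc M I J l)) +
      (-(X * c J * g I J (m + 1)) + if I = ∅ then X * c J * g ∅ J m else 0) := by
    intro I hI J _
    by_cases h : I = ∅
    · subst h
      simp only [if_true, h1, h0]
      ring
    · simp only [if_neg h, hgf I hI h]
      have h2 : ∑ l ∈ range (m + 1), (X : ℤ⟦X⟧) ^ (m + 1 - l) * g I J l =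
          X * (∑ l ∈ range m, X ^ (m - l) * g I J l) + X * g I J m := by
        rw [Finset.sum_range_succ, Finset.mul_sum]
        congr 1
        · refine Finset.sum_congr rfl fun l hl => ?_
          rw [Finset.mem_range] at hl
          rw [← mul_assoc, ← pow_succ']
          congr 2
          omega
        · rw [Nat.add_sub_cancel_left, pow_one]
      rw [h2]
      ring
  have hsplit : ∀ F : Finset (σ →₀ ℕ) → Finset σ → ℤ⟦X⟧,
      ∀ G : Finset (σ →₀ ℕ) → Finset σ → ℤ⟦X⟧, ∀ H : Finset (σ →₀ ℕ) → Finset σ → ℤ⟦X⟧,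
      (∑ I ∈ M.powerset, ∑ J ∈ (univ : Finset σ).powerset, F I J) +
        (-X * (∑ I ∈ M.powerset, ∑ J ∈ (univ : Finset σ).powerset, G I J) +
        X * ∑ I ∈ M.powerset, ∑ J ∈ (univ : Finset σ).powerset, H I J) =
      ∑ I ∈ M.powerset, ∑ J ∈ (univ : Finset σ).powerset,
        (F I J + (-X * G I J + X * H I J)) := by
    intro F G H
    simp_rw [Finset.sum_add_distrib, Finset.mul_sum]
  rw [hsplit, Finset.sum_congr rfl fun I hI => Finset.sum_congr rfl fun J hJ => key I hI J hJ]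
  simp_rw [Finset.sum_add_distrib, Finset.sum_sub_distrib]
  have hzero : ∑ I ∈ M.powerset, ∑ J ∈ (univ : Finset σ).powerset, -(X * c J * g I J (m + 1)) +
      ∑ I ∈ M.powerset, ∑ J ∈ (univ : Finset σ).powerset,
        (if I = ∅ then X * c J * g ∅ J m else 0) = 0 := by
    rw [Finset.sum_comm]
    have e1 : ∑ I ∈ M.powerset, ∑ J ∈ (univ : Finset σ).powerset,
        (if I = ∅ then X * c J * g ∅ J m else 0) =
        ∑ J ∈ (univ : Finset σ).powerset, X * c J * g ∅ J m := by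
      rw [Finset.sum_comm]
      refine Finset.sum_congr rfl fun J _ => ?_
      rw [Finset.sum_ite_eq' M.powerset ∅ (fun _ => X * c J * g ∅ J m), if_pos]
      exact Finset.empty_mem_powerset M
    rw [e1, ← Finset.sum_add_distrib]
    refine Finset.sum_eq_zero fun J _ => ?_
    rw [hrel J m, Finset.sum_neg_distrib, ← Finset.mul_sum]
    ring
  rw [hzero, add_zero]
  simp_rw [Finset.mul_sum]


section seqsec

variable {σ : Type} [Fintype σ]

open scoped Classical in
theorem seqKP {KP : Slp} (hzsk : ZskP KP) {M : Finset (σ →₀ ℕ)} (hM : M.Nonempty)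
    {B : Set ℚ} (hB1 : 1 ∉ B) (hB : ∀ x ∈ B, KP σ M x ∨ AllUB M x) (hB0 : B.Nonempty)
    (J : Finset σ)
    (c : ℤ⟦X⟧) (y1 y0 : Finset (σ →₀ ℕ) → ℤ⟦X⟧) (h1 : y1 ∅ = 0) (h0 : y0 ∅ = c)
    (hy1 : KRelJ M X J y1 (X * c)) (hy0 : KRelJ M X J y0 (X * c))
    (D : ℤ⟦X⟧) (z1 z0 : Finset (σ →₀ ℕ) → Polynomial ℤ)
    (hz1 : ∀ I : Finset (σ →₀ ℕ), I ⊆ M → I.Nonempty → ∀ l,
      (z1 I : ℤ⟦X⟧) * cs X M I J l l = D * y1 I * gfc M I J l)
    (hz0 : ∀ I : Finset (σ →₀ ℕ), I ⊆ M → I.Nonempty → ∀ l,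
      (z0 I : ℤ⟦X⟧) * cs X M I J l l = D * y0 I * gfc M I J l) :
    RQ (Polynomial.X : Polynomial ℤ) (steps ((slopes M ∪ {1}) \ B)) (fun m =>
      ∑ I ∈ M.powerset, (z1 I * cs Polynomial.X M I J m m
        + z0 I * ∑ l ∈ range m, Polynomial.X ^ (m - l) * cs Polynomial.X M I J l l)) := by
  have key : ∀ x ∈ B, RQ (Polynomial.X : Polynomial ℤ) (steps ((slopes M ∪ {1}) \ {x})) (fun m =>
      ∑ I ∈ M.powerset, (z1 I * cs Polynomial.X M I J m m
        + z0 I * ∑ l ∈ range m, Polynomial.X ^ (m - l) * cs Polynomial.X M I J l l)) := by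
    intro x hx
    have hx1 : x ≠ 1 := fun h => hB1 (h ▸ hx)
    have h2 : RQ (X : ℤ⟦X⟧) (steps ((slopes M ∪ {1}) \ {x})) (fun m =>
        ∑ I ∈ M.powerset, ∑ J' ∈ (univ : Finset σ).powerset, if I = ∅ then 0 else
          (if J' = J then y1 I else 0) * gfc M I J' m +
            (if J' = J then y0 I else 0) * ∑ l ∈ range m, X ^ (m - l) * gfc M I J' l) := by
      rcases hB x hx with hK | hU
      · have hrel : ∀ y : Finset (σ →₀ ℕ) → ℤ⟦X⟧, KRelJ M X J y (X * c) →
            KRel M X (fun I J' => if J' = J then y I else 0)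
              (fun J' => X * if J' = J then c else 0) := by
          intro y hy I J' K hI hd hKS
          by_cases h : J' = J
          · subst h
            simp only [if_true]
            exact hy I K hI hd hKS
          · simp only [if_neg h, mul_zero, Finset.sum_const_zero]
        exact hzsk σ M hM x hx1 hK (fun J' => if J' = J then c else 0)
          (fun I J' => if J' = J then y1 I else 0) (fun I J' => if J' = J then y0 I else 0)
          (fun J' => by simp only [h1, ite_self]) (fun J' => by simp only [h0])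
          (hrel y1 hy1) (hrel y0 hy0)
      · exact H28.zsc (H73.zalg H7.ext2) H40.zg σ M hM x hx1 hU (fun J' => if J' = J then c else 0)
          (fun I J' => if J' = J then y1 I else 0) (fun I J' => if J' = J then y0 I else 0)
          (fun J' => by simp only [h1, ite_self]) (fun J' => by simp only [h0])
          (fun I J' A j hv => by
            by_cases h : J' = J
            · subst h
              simp only [if_true]
              exact val_rel hy1 I A j hv
            · simp only [if_neg h]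
              ring)
          (fun I J' A j hv => by
            by_cases h : J' = J
            · subst h
              simp only [if_true]
              exact val_rel hy0 I A j hv
            · simp only [if_neg h]
              ring)
    refine RQ_of_inj (Polynomial.coeToPowerSeries.ringHom)
      (fun p q h => Polynomial.coe_injective ℤ (by simpa using h)) (RQ_smul D h2) (by simp)
      fun m => ?_
    rw [map_sum, Finset.mul_sum]
    refine Finset.sum_congr rfl fun I hIM => ?_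
    have hIM' : I ⊆ M := Finset.mem_powerset.1 hIM
    rw [Finset.sum_eq_single J]
    rotate_left
    · intro J' _ hJ'
      simp only [if_neg hJ', zero_mul, add_zero, ite_self]
    · intro h
      exact absurd (Finset.mem_powerset.2 (Finset.subset_univ J)) h
    have hcs : ∀ l, (Polynomial.coeToPowerSeries.ringHom : Polynomial ℤ →+* ℤ⟦X⟧)
        (cs Polynomial.X M I J l l) = cs X M I J l l := by
      intro l
      rw [cs_map]
      simp
    rw [map_add, map_mul, map_mul, map_sum, hcs]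
    have hsum : ∑ l ∈ range m, (Polynomial.coeToPowerSeries.ringHom : Polynomial ℤ →+* ℤ⟦X⟧)
        (Polynomial.X ^ (m - l) * cs Polynomial.X M I J l l)
        = ∑ l ∈ range m, X ^ (m - l) * cs X M I J l l := by
      refine Finset.sum_congr rfl fun l _ => ?_
      rw [map_mul, map_pow, hcs]
      simp
    rw [hsum]
    by_cases hI : I = ∅
    · have h3 : ∀ l, cs (X : ℤ⟦X⟧) M I J l l = 0 := by
        intro l
        unfold cs
        refine Finset.sum_eq_zero fun u _ => ?_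
        rw [if_neg]
        intro h
        exact absurd h.ne (by rw [hI]; simp)
      simp only [if_pos hI, h3, mul_zero, Finset.sum_const_zero, add_zero]
    · have hI' := Finset.nonempty_iff_ne_empty.2 hI
      simp only [if_neg hI, if_true]
      have e1 := hz1 I hIM' hI' m
      have e0 : (z0 I : ℤ⟦X⟧) * ∑ l ∈ range m, X ^ (m - l) * cs X M I J l l
          = D * y0 I * ∑ l ∈ range m, X ^ (m - l) * gfc M I J l := by
        rw [Finset.mul_sum, Finset.mul_sum]
        refine Finset.sum_congr rfl fun l _ => ?_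
        rw [mul_left_comm, hz0 I hIM' hI' l]
        ring
      have e2 : (Polynomial.coeToPowerSeries.ringHom : Polynomial ℤ →+* ℤ⟦X⟧) (z1 I) = z1 I := rfl
      have e3 : (Polynomial.coeToPowerSeries.ringHom : Polynomial ℤ →+* ℤ⟦X⟧) (z0 I) = z0 I := rfl
      rw [e2, e3, e1, e0]
      ring
  obtain ⟨x₀, hx₀⟩ := hB0
  refine H36.gcd _ B _ ?_ key
  have hmono : ∀ {P Q : Set (ℕ × ℕ)} {a : ℕ → Polynomial ℤ}, P ⊆ Q → RQ Polynomial.X P a →
      RQ Polynomial.X Q a := by
    intro P Q a hPQ h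
    induction h with
    | fin a N h => exact .fin _ N h
    | step a u v huv _ ih => exact .step _ u v (hPQ huv) ih
  refine hmono ?_ (key x₀ hx₀)
  intro p hp
  exact ⟨hp.1, hp.2.1⟩

end seqsec

theorem seqP {KP : Slp} (h : ZskP KP) : SeqP KP := by
  intro σ _ M hM B hB1 hB hB0 R _ L J c y1 y0 h1 h0 hy1 hy0 D z1 z0 hz1 hz0
  have h2 := RQ_map (evL L) (seqKP h hM hB1 hB hB0 J c y1 y0 h1 h0 hy1 hy0 D z1 z0 hz1 hz0)
  refine (RQ_toRP L (evL_X L) h2).congr fun m => ?_
  rw [map_sum]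
  refine Finset.sum_congr rfl fun I _ => ?_
  rw [map_add, map_mul, map_mul, map_sum, cs_map, evL_X]
  congr 2
  refine Finset.sum_congr rfl fun l _ => ?_
  rw [map_mul, map_pow, cs_map, evL_X]


open scoped Classical in
/-- row GDA -/
theorem gdaP {KP : Slp} (h1 : RecStmt) (h2 : UnrStmt) (h3 : TrfStmt) (h4 : SeqP KP) : GdaP KP := by
  intro σ _ M hM B hB1 hB hB0 R _ L J hJ P hP τ W1 W0 hW1 hW0
  obtain ⟨-, hrec⟩ := h1 σ M J
  obtain ⟨hdeg, he1, he0⟩ := hrec P hP
  obtain ⟨q, hq⟩ : ∃ q : ℤ⟦X⟧, (1 - X) * q = 1 := by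
    have h2 : IsUnit (1 - X : ℤ⟦X⟧) := by
      rw [PowerSeries.isUnit_iff_constantCoeff]
      simp
    obtain ⟨u, hu⟩ := h2
    refine ⟨(u⁻¹ : ℤ⟦X⟧ˣ), ?_⟩
    rw [← hu, Units.mul_inv]
  have hd : ∀ I, dd I J ≤ nJ J := fun I => by
    have := card_free I J
    omega
  have hdd : dd (∅ : Finset (σ →₀ ℕ)) J = 0 := by
    unfold dd
    simp
  have hrel := h2 σ M J hJ P hP q hq
  -- the product identities
  have hpr : ∀ (l : Option (Finset (σ →₀ ℕ))) (I : Finset (σ →₀ ℕ)), I ⊆ M → I.Nonempty → ∀ m,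
      (ZX (nJ J) (P I l) : ℤ⟦X⟧) * cs X M I J m m
        = (1 - X) ^ nJ J * nrm (X * q) (dd I J) (P I l) * gfc M I J m := fun l I hI hI' m =>
    (h3 σ M J (P I l)).1 q hq I hI' (hdeg I hI l) m
  -- the values
  have hev : ∀ (l : Option (Finset (σ →₀ ℕ))) (I : Finset (σ →₀ ℕ)), I ⊆ M →
      (L : R) ^ nJ J * evL L (ZX (nJ J) (P I l)) = evI ((L : R) - 1) (P I l) := fun l I hI =>
    (h3 σ M J (P I l)).2 R L ((hdeg I hI l).trans (hd I))
  have hn0 : ∀ l, l ≠ some ∅ → nrm (X * q) (dd ∅ J) (P ∅ l) = (0 : ℤ⟦X⟧) := by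
    intro l hl
    rw [he0 l hl, nrm_zero]
  have hn1 : nrm (X * q) (dd ∅ J) (P ∅ (some ∅)) = (1 : ℤ⟦X⟧) := by
    rw [he1, hdd, nrm_one]
  have hrN : KRelJ M (X : ℤ⟦X⟧) J (fun I => nrm (X * q) (dd I J) (P I none)) X := by
    have := hrel none
    rwa [if_pos rfl] at this
  have hrS : ∀ I₁, KRelJ M (X : ℤ⟦X⟧) J (fun I => nrm (X * q) (dd I J) (P I (some I₁))) 0 := by
    intro I₁
    have := hrel (some I₁)
    rwa [if_neg (Option.some_ne_none I₁)] at this
  -- the family of the torus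
  have gT : Good L M B J
      (fun I => evI ((L : R) - 1) (P I none))
      (fun I => evI ((L : R) - 1) (P I none) + evI ((L : R) - 1) (P I (some ∅))) := by
    have h5 := h4 σ M hM B hB1 hB hB0 R L J 1
      (fun I => nrm (X * q) (dd I J) (P I none))
      (fun I => nrm (X * q) (dd I J) (P I none) + nrm (X * q) (dd I J) (P I (some ∅)))
      (hn0 none (Option.some_ne_none ∅).symm)
      (by
        show nrm (X * q) (dd ∅ J) (P ∅ none) + nrm (X * q) (dd ∅ J) (P ∅ (some ∅)) = (1 : ℤ⟦X⟧)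
        rw [hn0 none (Option.some_ne_none ∅).symm, hn1, zero_add])
      (by
        rw [mul_one]
        exact hrN)
      (by
        have h6 := krelJ_add hrN (hrS ∅)
        rw [add_zero] at h6
        rw [mul_one]
        exact h6)
      ((1 - X) ^ nJ J) (fun I => ZX (nJ J) (P I none))
      (fun I => ZX (nJ J) (P I none) + ZX (nJ J) (P I (some ∅)))
      (fun I hI hI' m => hpr none I hI hI' m)
      (fun I hI hI' m => by
        rw [Polynomial.coe_add, add_mul, hpr none I hI hI' m, hpr (some ∅) I hI hI' m]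
        ring)
    refine (h5.smul ((L : R) ^ nJ J)).congr (fun I hI => ?_) (fun I hI => ?_)
    · exact hev none I (Finset.mem_powerset.1 hI)
    · rw [map_add, mul_add, hev none I (Finset.mem_powerset.1 hI),
        hev (some ∅) I (Finset.mem_powerset.1 hI)]
  -- the families of the irreducible sets
  have g1 : ∀ I₁ : Finset (σ →₀ ℕ), I₁ ≠ ∅ → Good L M B J
      (fun I => evI ((L : R) - 1) (P I (some I₁))) (fun _ => 0) := by
    intro I₁ hI₁
    have hne : some I₁ ≠ some ∅ := fun h => hI₁ (Option.some_injective _ h)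
    have h5 := h4 σ M hM B hB1 hB hB0 R L J 0
      (fun I => nrm (X * q) (dd I J) (P I (some I₁))) (fun _ => 0)
      (hn0 _ hne) rfl
      (by
        rw [mul_zero]
        exact hrS I₁)
      (by
        rw [mul_zero]
        exact krelJ_zero)
      ((1 - X) ^ nJ J) (fun I => ZX (nJ J) (P I (some I₁))) (fun _ => 0)
      (fun I hI hI' m => hpr (some I₁) I hI hI' m)
      (fun I hI hI' m => by
        rw [Polynomial.coe_zero, zero_mul, mul_zero, zero_mul])
    refine (h5.smul ((L : R) ^ nJ J)).congr (fun I hI => ?_) (fun I hI => ?_)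
    · exact hev (some I₁) I (Finset.mem_powerset.1 hI)
    · rw [map_zero, mul_zero]
  have g0 : ∀ I₁ : Finset (σ →₀ ℕ), I₁ ≠ ∅ → Good L M B J
      (fun _ => 0) (fun I => evI ((L : R) - 1) (P I (some I₁))) := by
    intro I₁ hI₁
    have hne : some I₁ ≠ some ∅ := fun h => hI₁ (Option.some_injective _ h)
    have h5 := h4 σ M hM B hB1 hB hB0 R L J 0
      (fun _ => 0) (fun I => nrm (X * q) (dd I J) (P I (some I₁)))
      rfl (hn0 _ hne)
      (by
        rw [mul_zero]
        exact krelJ_zero)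
      (by
        rw [mul_zero]
        exact hrS I₁)
      ((1 - X) ^ nJ J) (fun _ => 0) (fun I => ZX (nJ J) (P I (some I₁)))
      (fun I hI hI' m => by
        rw [Polynomial.coe_zero, zero_mul, mul_zero, zero_mul])
      (fun I hI hI' m => hpr (some I₁) I hI hI' m)
    refine (h5.smul ((L : R) ^ nJ J)).congr (fun I hI => ?_) (fun I hI => ?_)
    · rw [map_zero, mul_zero]
    · exact hev (some I₁) I (Finset.mem_powerset.1 hI)
  -- the sum
  have hsum := (gT.smul τ).add (Good.sum (M.powerset.erase ∅) (fun I₁ hI₁ =>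
    ((g1 I₁ (Finset.ne_of_mem_erase hI₁)).smul (W1 I₁)).add
      ((g0 I₁ (Finset.ne_of_mem_erase hI₁)).smul (W0 I₁))))
  have he : ∅ ∈ M.powerset := Finset.empty_mem_powerset M
  refine hsum.congr (fun I hI => ?_) (fun I hI => ?_)
  · rw [← Finset.add_sum_erase _ _ he, hW1, mul_zero, zero_add, mul_comm τ]
    congr 1
    refine Finset.sum_congr rfl fun I₁ _ => ?_
    ring
  · rw [← Finset.add_sum_erase _ _ he, hW0]
    have h6 : ∑ I₁ ∈ M.powerset.erase ∅, (W1 I₁ * 0 + W0 I₁ * evI ((L : R) - 1) (P I (some I₁)))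
        = ∑ I₁ ∈ M.powerset.erase ∅, evI ((L : R) - 1) (P I (some I₁)) * W0 I₁ := by
      refine Finset.sum_congr rfl fun I₁ _ => ?_
      ring
    rw [h6]
    ring


/-- the end of the zeta side from its modules -/
theorem zfkP_aux {KP : Slp} (hcls : ClsStmt) (hS : StrataStmt) (h1 : P1Stmt)
    (h2 : P2Stmt) (h3 : P3Stmt) (hY : YttStmt) (hT : TruncStmt) (hC : ConeStmt)
    (hsmo : SmoStmt) (hclk : ClkStmt) (hrec : RecStmt) (huso : UsoStmt) (hgda : GdaP KP) :
    ZfinP KP := by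
  classical
  intro k _ _ σ _ R _ L χ f hf hai hconf B hB1 hB
  have hsm : ∀ I : Finset (σ →₀ ℕ), I ⊆ f.support → I.Nonempty → TorusSmooth (part f I) :=
    fun I hI hne => hsmo k σ f hai I hI hne
  by_cases hB0 : B.Nonempty
  swap
  · obtain rfl : B = ∅ := Set.not_nonempty_iff_eq_empty.1 hB0
    have h4 := zfin0 hS h1 h2 h3 hY hT hC k σ R L χ f hf hsm
    rw [Set.sdiff_empty]
    exact h4
  have hM : f.support.Nonempty := MvPolynomial.support_nonempty.2 hf
  choose P hP using fun J : Finset σ => (hrec σ f.support J).1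
  have hL : ((L : R) - 1) + 1 = L := sub_add_cancel _ _
  have form0 : ∀ (J : Finset σ) (I : Finset (σ →₀ ℕ)), I ⊆ f.support →
      χ.χ (TT0 (V0 f I J)) = evI ((L : R) - 1) (P J I none) * χ.χ (TT0 (V0 f ∅ J))
        + ∑ I₁ ∈ f.support.powerset, evI ((L : R) - 1) (P J I (some I₁))
          * χ.χ (TT0 (V0 f I₁ J)) := by
    intro J I hI
    refine huso σ f.support J (P J) (hP J) R ((L : R) - 1) (χ.χ (TT0 (V0 f ∅ J)))
      (fun _ => True) (fun _ _ _ h => h) (fun I => χ.χ (TT0 (V0 f I J)))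
      (fun I K hI _ hd hKS => ?_) I hI trivial
    rw [hL]
    exact (hclk k σ R L χ f hai I J K hI hd hKS).1
  have form1 : ∀ (J : Finset σ) (w : σ → ℚ), (∀ i ∈ J, w i = 0) →
      ∀ (I : Finset (σ →₀ ℕ)), I ⊆ f.support → (∀ α ∈ I, ∑ i, w i * (α i : ℚ) = 1) →
      Y1w χ f J I = evI ((L : R) - 1) (P J I none) * χ.χ (TT0 (V0 f ∅ J))
        + ∑ I₁ ∈ f.support.powerset, evI ((L : R) - 1) (P J I (some I₁))
          * Y1w χ f J I₁ := by
    intro J w hJ I hI hw
    refine huso σ f.support J (P J) (hP J) R ((L : R) - 1) (χ.χ (TT0 (V0 f ∅ J)))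
      (fun I => ∀ α ∈ I, ∑ i, w i * (α i : ℚ) = 1)
      (fun I I' h1 h2 α hα => h2 α (h1 hα)) (Y1w χ f J)
      (fun I K hI hw hd hKS => ?_) I hI hw
    rw [hL]
    exact (hclk k σ R L χ f hai I J K hI hd hKS).2 ⟨w, hw, hJ⟩
  have hgood : ∀ J : Finset σ, Good L f.support B J
      (fun I => evI ((L : R) - 1) (P J I none) * χ.χ (TT0 (V0 f ∅ J))
        + ∑ I₁ ∈ f.support.powerset, evI ((L : R) - 1) (P J I (some I₁)) * Y1w χ f J I₁)
      (fun I => evI ((L : R) - 1) (P J I none) * χ.χ (TT0 (V0 f ∅ J))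
        + ∑ I₁ ∈ f.support.powerset, evI ((L : R) - 1) (P J I (some I₁))
          * χ.χ (TT0 (V0 f I₁ J))) := fun J =>
    hgda σ f.support hM B hB1 hB hB0 R L J (hconf J) (P J) (hP J) (χ.χ (TT0 (V0 f ∅ J)))
      (Y1w χ f J) (fun I => χ.χ (TT0 (V0 f I J))) (Y1w_empty hcls χ f J) rfl
  obtain ⟨T, hTdef⟩ : ∃ T : ℕ → R, T = fun m => ∑ J ∈ (univ : Finset σ).powerset,
      ∑ I ∈ f.support.powerset,
      ((evI ((L : R) - 1) (P J I none) * χ.χ (TT0 (V0 f ∅ J))
        + ∑ I₁ ∈ f.support.powerset, evI ((L : R) - 1) (P J I (some I₁)) * Y1w χ f J I₁)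
          * cs (Li L) f.support I J m m
      + (evI ((L : R) - 1) (P J I none) * χ.χ (TT0 (V0 f ∅ J))
        + ∑ I₁ ∈ f.support.powerset, evI ((L : R) - 1) (P J I (some I₁))
          * χ.χ (TT0 (V0 f I₁ J)))
        * ∑ l ∈ range m, Li L ^ (m - l) * cs (Li L) f.support I J l l) := ⟨_, rfl⟩
  have hRP : RP L (steps ((slopes f.support ∪ {1}) \ B)) T := by
    rw [hTdef]
    exact RP.sum _ fun J _ => hgood J
  refine ⟨fun m => if m = 0 then 0 else T m, by simp, ?_, ?_⟩
  · refine RP.of_shift 1 ((hRP.shift 1).congr fun m => ?_)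
    rw [if_neg (Nat.succ_ne_zero m)]
  · intro m hm hω
    simp only [if_neg hm]
    rw [hS k σ R L χ f m hm _ hω, Finset.mul_sum]
    simp only [keyK χ f h1 h2 h3 hY hf hsm m hm hω]
    rw [Finset.sum_comm, Finset.sum_congr rfl fun t _ =>
        Pool.Agent.Helper30_Simp.H15.sum_gt χ f hT m t,
      Finset.sum_product, Finset.sum_comm, hTdef]
    refine Finset.sum_congr rfl fun J _ => Finset.sum_congr rfl fun I hI => ?_
    have hIM : I ⊆ f.support := Finset.mem_powerset.1 hI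
    simp only [coneSum_eq_cs]
    congr 1
    · by_cases hex : ∃ u : σ → ℕ, CellS f.support I J u m
      · obtain ⟨u, hu⟩ := hex
        have hex' : ∃ (u₀ : σ → ℕ) (N₀ : ℕ), CellS f.support (I, J).1 (I, J).2 u₀ N₀ ∧ N₀ ≠ 0 :=
          ⟨u, m, hu, hm⟩
        have e1 : Pool.Agent.Helper30_Simp.H15.Y1 χ f (I, J)
            = χ.χ (TT1 (V1 hex'.choose_spec.choose_spec.1
            hex'.choose_spec.choose_spec.2) rfl) := by
          unfold Pool.Agent.Helper30_Simp.H15.Y1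
          rw [dif_pos hex']
        have e2 : ∀ (u₀ : σ → ℕ) (N₀ : ℕ) (h : CellS f.support I J u₀ N₀) (hN₀ : N₀ ≠ 0),
            χ.χ (TT1 (V1 h hN₀) rfl) = evI ((L : R) - 1) (P J I none) * χ.χ (TT0 (V0 f ∅ J))
              + ∑ I₁ ∈ f.support.powerset, evI ((L : R) - 1) (P J I (some I₁))
                * Y1w χ f J I₁ := by
          intro u₀ N₀ h hN₀
          have hw : ∀ α ∈ I, ∑ i, ((u₀ i : ℚ) / N₀) * (α i : ℚ) = 1 := by
            intro α hα
            have h5 := h.eq α hα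
            rw [dot_nat] at h5
            have h6 : (N₀ : ℚ) ≠ 0 := by exact_mod_cast hN₀
            have h7 : ∑ i, ((u₀ i : ℚ) / N₀) * (α i : ℚ)
                = (∑ i, (u₀ i : ℚ) * (α i : ℚ)) / N₀ := by
              rw [Finset.sum_div]
              exact Finset.sum_congr rfl fun i _ => by ring
            have h8 : (∑ i, (u₀ i : ℚ) * (α i : ℚ)) = N₀ := by
              rw [← h5]
              push_cast
              rfl
            rw [h7, h8, div_self h6]
          have hJ : ∀ i ∈ J, (u₀ i : ℚ) / N₀ = 0 := by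
            intro i hi
            rw [(h.zero i).2 hi]
            simp
          rw [← form1 J (fun i => (u₀ i : ℚ) / N₀) hJ I hIM hw,
            Y1w_eq hcls χ f J I (fun i => (u₀ i : ℚ) / N₀) hw hJ]
        rw [e1, e2]
      · have h5 : cs (Li L) f.support I J m m = 0 := by
          unfold cs
          refine Finset.sum_eq_zero fun u _ => ?_
          rw [if_neg]
          exact fun h => hex ⟨_, h⟩
        rw [h5, mul_zero, mul_zero]
    · have h5 : Pool.Agent.Helper30_Simp.H15.Y0 χ f (I, J)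
          = evI ((L : R) - 1) (P J I none) * χ.χ (TT0 (V0 f ∅ J))
            + ∑ I₁ ∈ f.support.powerset, evI ((L : R) - 1) (P J I (some I₁))
              * χ.χ (TT0 (V0 f I₁ J)) := form0 J I hIM
      rw [h5]
      congr 1
      rw [Finset.Nat.sum_antidiagonal_eq_sum_range_succ_mk, Finset.sum_range_succ]
      simp only [Nat.sub_self, if_true, mul_zero, add_zero]
      refine Finset.sum_congr rfl fun l hl => ?_
      have hl' := Finset.mem_range.1 hl
      rw [if_neg (by omega : ¬ m - l = 0), Units.val_pow_eq_pow_val, mul_comm]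

/-- **Row ZFK**: the end of the zeta side -/
theorem zfkP {KP : Slp} (h1 : SmoStmt) (h2 : ClkStmt) (h3 : RecStmt) (h4 : UsoStmt)
    (h5 : GdaP KP) : ZfinP KP :=
  zfkP_aux
    (Pool.Agent.Helper30_Simp2.H63.cls Pool.Agent.Helper30_Simp.H51.fts
      (Pool.Agent.Helper30_Simp.H39.weights Pool.Agent.Helper30_Simp.H51.fts)
      (Pool.Agent.Helper30_Simp.H39.split Pool.Agent.Helper30_Simp.H51.fts))
    Pool.Agent.Helper30_Simp.H70.strata Pool.Agent.Helper30_Simp.H51.p1
    Pool.Agent.Helper30_Simp.H51.p2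
    (Pool.Agent.Helper30_Simp.H51.p3 Pool.Agent.Helper30_Simp.H52.hen)
    (Pool.Agent.Helper30_Simp.H39.ytt
      (Pool.Agent.Helper30_Simp.H39.weights Pool.Agent.Helper30_Simp.H51.fts)
      (Pool.Agent.Helper30_Simp.H39.split Pool.Agent.Helper30_Simp.H51.fts))
    Pool.Agent.Helper30_Simp.H32.trunc coneStmt h1 h2 h3 h4 h5


end Pool.Agent.GEN.H56
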