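import Pool.Agent.GEN.StmtsT
import Pool.Agent.Helper56_GEN.Par
import Pool.Agent.Helper21_GEN.CLK

/-!
# Squad GEN, block T: the zeta side for polynomials all of whose partial sums are nondegenerate
-/

set_option autoImplicit false
set_option linter.unusedVariables false
set_option linter.unusedSectionVars false

namespace Pool.Agent.GEN.H56

open PowerSeries Finset Pool.Agent.Helper6_Mono Pool.Agent.Helper30_Simp
  Pool.Agent.Helper30_Simp.H32 Pool.Agent.Helper30_Simp2 Pool.Agent.Helper30_Simp2.H63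
  Pool.Agent.GEN Pool.Agent.GEN.H71 Pool.Agent.GEN.H21

/-- the relations of the classes -/
def ClkN : Prop :=
  ∀ (k : Type) [Field k] [CharZero k] (σ : Type) [Fintype σ] (R : Type 1) [CommRing R] (L : Rˣ)
    (χ : SInv k (fun _ : σ => (0 : QZ)) L) (f : MvPolynomial σ k), NDP f →
    ∀ (I : Finset (σ →₀ ℕ)) (J K : Finset σ), I ⊆ f.support → Disjoint K J → KS I K →
    (∑ K' ∈ K.powerset, ((L : R) - 1) ^ gex I J K K' * χ.χ (TT0 (V0 f (keep I K K') J))
      = ((L : R) - 1) ^ (dd I J - K.card) * (L : R) ^ (K.card - 1) * χ.χ (TT0 (V0 f ∅ J))) ∧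
    ((∃ w : σ → ℚ, (∀ α ∈ I, ∑ i, w i * (α i : ℚ) = 1) ∧ ∀ i ∈ J, w i = 0) →
      ∑ K' ∈ K.powerset, ((L : R) - 1) ^ gex I J K K' * Y1w χ f J (keep I K K')
      = ((L : R) - 1) ^ (dd I J - K.card) * (L : R) ^ (K.card - 1) * χ.χ (TT0 (V0 f ∅ J)))

/-- end of the zeta side -/
def ZfinN (KP : Slp) : Prop :=
  ∀ (k : Type) [Field k] [CharZero k] (σ : Type) [Fintype σ] (R : Type 1) [CommRing R] (L : Rˣ)
    (χ : SInv k (fun _ : σ => (0 : QZ)) L) (f : MvPolynomial σ k), f ≠ 0 → NDP f →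
    (∀ J, Conf f.support J) →
    ∀ B : Set ℚ, 1 ∉ B → (∀ x ∈ B, KP σ f.support x ∨ AllUB f.support x) →
    ∃ a : ℕ → R, a 0 = 0 ∧ RP L (steps ((slopes f.support ∪ {1}) \ B)) a ∧
      ∀ (m : ℕ) (hm : m ≠ 0) (hω : m • ((((1 : ℚ) / m : ℚ)) : QZ) = 0),
        a m = Li L ^ (m * Fintype.card σ) *
          χ.χ ((FibK k σ ((((1 : ℚ) / m : ℚ)) : QZ) m hω).app
            (Jet f Set.univ m ((((1 : ℚ) / m : ℚ)) : QZ)))

theorem clkN (h1 : EmnStmt) (h2 : StkStmt) (h3 : AfkStmt) : ClkN := by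
  intro k _ _ σ _ R _ L χ f hind I J K hI hJK hKS
  have hemp := h1 k σ f hind I K hI hKS
  have hFT : FTStmt := Helper30_Simp.H51.fts
  constructor
  · have hU : ∀ i, i ∈ (V0 f I J).U ↔ i ∉ freeV I J := by
      intro i
      simp
    have e1 := (h2 k σ R L χ f I J K hI hJK hKS.1 false (V0 f I J) rfl hU rfl
      (fun K' => keep_sub I K K')).2
    have e2 := h3 k σ R L χ f I J K hI hJK hKS.1 false (V0 f I J) rfl hU rfl hemp
    rw [e2] at e1
    rw [e1]
    refine Finset.sum_congr rfl fun K' _ => ?_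
    congr 1
    exact χ.iso ((hFT k σ QZ).1 _ _) (iso0 (V0 f (keep I K K') J) rfl)
  · rintro ⟨w, hw, hwJ⟩
    have hU : ∀ i, i ∈ (VQ f I J w hw hwJ).U ↔ i ∉ freeV I J := by
      intro i
      simp
    have e1 := (h2 k σ R L χ f I J K hI hJK hKS.1 true (VQ f I J w hw hwJ) rfl hU rfl
      (fun K' => keep_sub I K K')).2
    have e2 := h3 k σ R L χ f I J K hI hJK hKS.1 true (VQ f I J w hw hwJ) rfl hU rfl hemp
    rw [e2] at e1
    rw [e1]
    refine Finset.sum_congr rfl fun K' _ => ?_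
    congr 1
    have hw' : ∀ α ∈ keep I K K', ∑ i, w i * (α i : ℚ) = 1 :=
      fun α hα => hw α (keep_sub I K K' hα)
    have hcls : ClsStmt := H63.cls hFT (Helper30_Simp.H39.weights hFT)
      (Helper30_Simp.H39.split hFT)
    rw [Y1w_eq hcls χ f J (keep I K K') w hw' hwJ]
    exact χ.iso ((hFT k σ QZ).2.1 _ _ _) (iso1 (VQ f (keep I K K') J w hw' hwJ) rfl)


/-- the end of the zeta side from its modules -/
theorem zfkN_aux {KP : Slp} (hcls : ClsStmt) (hS : StrataStmt) (h1 : P1Stmt)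
    (h2 : P2Stmt) (h3 : P3Stmt) (hY : YttStmt) (hT : TruncStmt) (hC : ConeStmt)
    (hclk : ClkN) (hrec : RecStmt) (huso : UsoStmt) (hgda : GdaP KP) :
    ZfinN KP := by
  classical
  intro k _ _ σ _ R _ L χ f hf hai hconf B hB1 hB
  have hsm : ∀ I : Finset (σ →₀ ℕ), I ⊆ f.support → I.Nonempty → TorusSmooth (part f I) := hai
  by_cases hB0 : B.Nonempty
  swap
  · obtain rfl : B = ∅ := Set.not_nonempty_iff_eq_empty.1 hB0
    have h4 := zfin0 hS h1 h2 h3 hY hT hC k σ R L χ f hf hsm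
    rw [Set.sdiff_empty]
    exact h4
  have hM : f.support.Nonempty := MvPolynomial.support_nonempty.2 hf
  choose P hP using fun J : Finset σ => (hrec σ f.support J).1
  have hL : ((L : R) - 1) + 1 = L := sub_add_cancel _ _
  have form0 : ∀ (J : Finset σ) (I : Finset (σ →₀ ℕ)), I ⊆ f.support →
      χ.χ (TT0 (V0 f I J)) = evI ((L : R) - 1) (P J I none) * χ.χ (TT0 (V0 f ∅ J))
        + ∑ I₁ ∈ f.support.powerset, evI ((L : R) - 1) (P J I (some I₁))
          * χ.χ (TT0 (V0 f I₁ J)) := by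
    intro J I hI
    refine huso σ f.support J (P J) (hP J) R ((L : R) - 1) (χ.χ (TT0 (V0 f ∅ J)))
      (fun _ => True) (fun _ _ _ h => h) (fun I => χ.χ (TT0 (V0 f I J)))
      (fun I K hI _ hd hKS => ?_) I hI trivial
    rw [hL]
    exact (hclk k σ R L χ f hai I J K hI hd hKS).1
  have form1 : ∀ (J : Finset σ) (w : σ → ℚ), (∀ i ∈ J, w i = 0) →
      ∀ (I : Finset (σ →₀ ℕ)), I ⊆ f.support → (∀ α ∈ I, ∑ i, w i * (α i : ℚ) = 1) →
      Y1w χ f J I = evI ((L : R) - 1) (P J I none) * χ.χ (TT0 (V0 f ∅ J))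
        + ∑ I₁ ∈ f.support.powerset, evI ((L : R) - 1) (P J I (some I₁))
          * Y1w χ f J I₁ := by
    intro J w hJ I hI hw
    refine huso σ f.support J (P J) (hP J) R ((L : R) - 1) (χ.χ (TT0 (V0 f ∅ J)))
      (fun I => ∀ α ∈ I, ∑ i, w i * (α i : ℚ) = 1)
      (fun I I' h1 h2 α hα => h2 α (h1 hα)) (Y1w χ f J)
      (fun I K hI hw hd hKS => ?_) I hI hw
    rw [hL]
    exact (hclk k σ R L χ f hai I J K hI hd hKS).2 ⟨w, hw, hJ⟩
  have hgood : ∀ J : Finset σ, Good L f.support B J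
      (fun I => evI ((L : R) - 1) (P J I none) * χ.χ (TT0 (V0 f ∅ J))
        + ∑ I₁ ∈ f.support.powerset, evI ((L : R) - 1) (P J I (some I₁)) * Y1w χ f J I₁)
      (fun I => evI ((L : R) - 1) (P J I none) * χ.χ (TT0 (V0 f ∅ J))
        + ∑ I₁ ∈ f.support.powerset, evI ((L : R) - 1) (P J I (some I₁))
          * χ.χ (TT0 (V0 f I₁ J))) := fun J =>
    hgda σ f.support hM B hB1 hB hB0 R L J (hconf J) (P J) (hP J) (χ.χ (TT0 (V0 f ∅ J)))
      (Y1w χ f J) (fun I => χ.χ (TT0 (V0 f I J))) (Y1w_empty hcls χ f J) rfl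
  obtain ⟨T, hTdef⟩ : ∃ T : ℕ → R, T = fun m => ∑ J ∈ (univ : Finset σ).powerset,
      ∑ I ∈ f.support.powerset,
      ((evI ((L : R) - 1) (P J I none) * χ.χ (TT0 (V0 f ∅ J))
        + ∑ I₁ ∈ f.support.powerset, evI ((L : R) - 1) (P J I (some I₁)) * Y1w χ f J I₁)
          * cs (Li L) f.support I J m m
      + (evI ((L : R) - 1) (P J I none) * χ.χ (TT0 (V0 f ∅ J))
        + ∑ I₁ ∈ f.support.powerset, evI ((L : R) - 1) (P J I (some I₁))
          * χ.χ (TT0 (V0 f I₁ J)))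
        * ∑ l ∈ range m, Li L ^ (m - l) * cs (Li L) f.support I J l l) := ⟨_, rfl⟩
  have hRP : RP L (steps ((slopes f.support ∪ {1}) \ B)) T := by
    rw [hTdef]
    exact RP.sum _ fun J _ => hgood J
  refine ⟨fun m => if m = 0 then 0 else T m, by simp, ?_, ?_⟩
  · refine RP.of_shift 1 ((hRP.shift 1).congr fun m => ?_)
    rw [if_neg (Nat.succ_ne_zero m)]
  · intro m hm hω
    simp only [if_neg hm]
    rw [hS k σ R L χ f m hm _ hω, Finset.mul_sum]
    simp only [keyK χ f h1 h2 h3 hY hf hsm m hm hω]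
    rw [Finset.sum_comm, Finset.sum_congr rfl fun t _ =>
        Pool.Agent.Helper30_Simp.H15.sum_gt χ f hT m t,
      Finset.sum_product, Finset.sum_comm, hTdef]
    refine Finset.sum_congr rfl fun J _ => Finset.sum_congr rfl fun I hI => ?_
    have hIM : I ⊆ f.support := Finset.mem_powerset.1 hI
    simp only [coneSum_eq_cs]
    congr 1
    · by_cases hex : ∃ u : σ → ℕ, CellS f.support I J u m
      · obtain ⟨u, hu⟩ := hex
        have hex' : ∃ (u₀ : σ → ℕ) (N₀ : ℕ), CellS f.support (I, J).1 (I, J).2 u₀ N₀ ∧ N₀ ≠ 0 :=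
          ⟨u, m, hu, hm⟩
        have e1 : Pool.Agent.Helper30_Simp.H15.Y1 χ f (I, J)
            = χ.χ (TT1 (V1 hex'.choose_spec.choose_spec.1
            hex'.choose_spec.choose_spec.2) rfl) := by
          unfold Pool.Agent.Helper30_Simp.H15.Y1
          rw [dif_pos hex']
        have e2 : ∀ (u₀ : σ → ℕ) (N₀ : ℕ) (h : CellS f.support I J u₀ N₀) (hN₀ : N₀ ≠ 0),
            χ.χ (TT1 (V1 h hN₀) rfl) = evI ((L : R) - 1) (P J I none) * χ.χ (TT0 (V0 f ∅ J))
              + ∑ I₁ ∈ f.support.powerset, evI ((L : R) - 1) (P J I (some I₁))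
                * Y1w χ f J I₁ := by
          intro u₀ N₀ h hN₀
          have hw : ∀ α ∈ I, ∑ i, ((u₀ i : ℚ) / N₀) * (α i : ℚ) = 1 := by
            intro α hα
            have h5 := h.eq α hα
            rw [dot_nat] at h5
            have h6 : (N₀ : ℚ) ≠ 0 := by exact_mod_cast hN₀
            have h7 : ∑ i, ((u₀ i : ℚ) / N₀) * (α i : ℚ)
                = (∑ i, (u₀ i : ℚ) * (α i : ℚ)) / N₀ := by
              rw [Finset.sum_div]
              exact Finset.sum_congr rfl fun i _ => by ring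
            have h8 : (∑ i, (u₀ i : ℚ) * (α i : ℚ)) = N₀ := by
              rw [← h5]
              push_cast
              rfl
            rw [h7, h8, div_self h6]
          have hJ : ∀ i ∈ J, (u₀ i : ℚ) / N₀ = 0 := by
            intro i hi
            rw [(h.zero i).2 hi]
            simp
          rw [← form1 J (fun i => (u₀ i : ℚ) / N₀) hJ I hIM hw,
            Y1w_eq hcls χ f J I (fun i => (u₀ i : ℚ) / N₀) hw hJ]
        rw [e1, e2]
      · have h5 : cs (Li L) f.support I J m m = 0 := by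
          unfold cs
          refine Finset.sum_eq_zero fun u _ => ?_
          rw [if_neg]
          exact fun h => hex ⟨_, h⟩
        rw [h5, mul_zero, mul_zero]
    · have h5 : Pool.Agent.Helper30_Simp.H15.Y0 χ f (I, J)
          = evI ((L : R) - 1) (P J I none) * χ.χ (TT0 (V0 f ∅ J))
            + ∑ I₁ ∈ f.support.powerset, evI ((L : R) - 1) (P J I (some I₁))
              * χ.χ (TT0 (V0 f I₁ J)) := form0 J I hIM
      rw [h5]
      congr 1
      rw [Finset.Nat.sum_antidiagonal_eq_sum_range_succ_mk, Finset.sum_range_succ]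
      simp only [Nat.sub_self, if_true, mul_zero, add_zero]
      refine Finset.sum_congr rfl fun l hl => ?_
      have hl' := Finset.mem_range.1 hl
      rw [if_neg (by omega : ¬ m - l = 0), Units.val_pow_eq_pow_val, mul_comm]

/-- **Row ZFK**: the end of the zeta side -/
theorem zfkN {KP : Slp} (h2 : ClkN) (h3 : RecStmt) (h4 : UsoStmt)
    (h5 : GdaP KP) : ZfinN KP :=
  zfkN_aux
    (Pool.Agent.Helper30_Simp2.H63.cls Pool.Agent.Helper30_Simp.H51.fts
      (Pool.Agent.Helper30_Simp.H39.weights Pool.Agent.Helper30_Simp.H51.fts)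
      (Pool.Agent.Helper30_Simp.H39.split Pool.Agent.Helper30_Simp.H51.fts))
    Pool.Agent.Helper30_Simp.H70.strata Pool.Agent.Helper30_Simp.H51.p1
    Pool.Agent.Helper30_Simp.H51.p2
    (Pool.Agent.Helper30_Simp.H51.p3 Pool.Agent.Helper30_Simp.H52.hen)
    (Pool.Agent.Helper30_Simp.H39.ytt
      (Pool.Agent.Helper30_Simp.H39.weights Pool.Agent.Helper30_Simp.H51.fts)
      (Pool.Agent.Helper30_Simp.H39.split Pool.Agent.Helper30_Simp.H51.fts))
    Pool.Agent.Helper30_Simp.H32.trunc coneStmt h2 h3 h4 h5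



end Pool.Agent.GEN.H56
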