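import Pool.Agent.Helper56_GEN.TorB
import Pool.Agent.Helper56_GEN.All
import Pool.Agent.Helper8_CR.All

/-!
# Squad GEN: the final theorem (stable form), relative to the rows of the blocks T, KTB, PT
-/

set_option autoImplicit false

namespace Pool.Agent.GEN.H56

open Pool.Agent.Helper6_Mono Pool.Agent.Helper30_Simp Pool.Agent.Helper30_Simp2 Pool.Agent.GEN
  Pool.Agent.Helper8_CR

theorem zfinNI (hE : EmnStmt) (hZ : ZaiStmt) : ZfinN KI :=
  zfkN (clkN hE (H28.stk H66.dca H44.dcb) (H2.afk H66.dca (H28.stk H66.dca H44.dcb)))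
    (H72.rec H44.dcb) (H76.uso H44.dcb)
    (gdaP (H72.rec H44.dcb) (H41.unr H44.dcb (H72.rec H44.dcb)) H78.trf (seqP (zskP hZ)))

/-- **the theorem for all supports**, coefficients independent after rescaling -/
theorem main_all_tor (hK : KpiStmt) (hZ : ZaiStmt) (hE : EmnStmt) (hN : NdtStmt) (hS : SclStmt)
    (hBm : BsmStmt) {k : Type} [Field k] [Algebra k ℂ] {σ : Type}
    [Fintype σ] {f : MvPolynomial σ k} (hf : ∀ c : k, f ≠ MvPolynomial.C c)
    (hA : TorInd f) : Mon f :=
  main_tor (zfinNI hE hZ) rooStmt hN hS hBm bautStmt hf hA (fun J => cngStmt σ f.support J)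
    fun x _ hk => hK σ f.support x hk

/-- **the final theorem**: some stabilization of `f` is isomorphic to a polynomial whose
coefficients are independent after rescaling -/
theorem main_stab (hK : KpiStmt) (hZ : ZaiStmt) (hE : EmnStmt) (hN : NdtStmt) (hS : SclStmt)
    (hBm : BsmStmt) (hSt : StbStmt) {k : Type} [Field k] [Algebra k ℂ] {σ τ : Type} [Finite σ]
    [Fintype τ] (f : MvPolynomial σ k) (hf : ∀ c : k, f ≠ MvPolynomial.C c) (r : ℕ)
    (G : MvPolynomial τ k) (hG : TorInd G)
    (Φ : MvPolynomial τ k ≃ₐ[k] MvPolynomial (SV σ r) k) (hΦ : Φ G = stab f r) : Mon f := by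
  have hGc : ∀ c : k, G ≠ MvPolynomial.C c := iso_ne_C Φ (by rw [hΦ]; exact stab_ne_C hf r)
  have hc : Nat.card (SV σ r) = Nat.card τ := by
    have h2 := ringKrullDim_eq_of_ringEquiv Φ.toRingEquiv
    rw [MvPolynomial.ringKrullDim_of_isNoetherianRing, MvPolynomial.ringKrullDim_of_isNoetherianRing,
      ringKrullDim_eq_zero_of_field, zero_add, zero_add] at h2
    exact_mod_cast h2.symm
  refine stable_closure serStmt H86.alg H87.zmap bfinStmt isozStmt bautStmt H34.ren f hf r hc G Φ
    hΦ fun s => ?_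
  exact main_all_tor hK hZ hE hN hS hBm (stab_ne_C hGc s) (hSt k τ G s hG)

end Pool.Agent.GEN.H56
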