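import Pool.Agent.Helper56_GEN.TorC
import Pool.Agent.GEN.DefsG
import Pool.Agent.Helper43_GEN.SCL
import Pool.Agent.Helper49_GEN.NDT

/-!
# Squad GEN: the final theorem for polynomials with a good rescaling
-/

set_option autoImplicit false
set_option linter.unusedVariables false

namespace Pool.Agent.GEN.H56

open PowerSeries Finset Pool.Agent.Helper6_Mono Pool.Agent.Helper30_Simp
  Pool.Agent.Helper30_Simp2 Pool.Agent.GEN Pool.Agent.Helper8_CR

/-- some rescaling of the polynomial `f` over `k ⊆ ℂ` is good -/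
def GoodK {k σ : Type} [Field k] [Algebra k ℂ] [Fintype σ] (f : MvPolynomial σ k) : Prop :=
  ∃ (a : ℂ) (t : σ → ℂ) (ht : ∀ i, t i ≠ 0), a ≠ 0 ∧
    GoodC (MvPolynomial.C a * H43.resc t ht (MvPolynomial.map (algebraMap k ℂ) f))

theorem coeff_sc {k σ : Type} [Field k] [Algebra k ℂ] (f : MvPolynomial σ k) (a : ℂ)
    (t : σ → ℂ) (ht : ∀ i, t i ≠ 0) (α : σ →₀ ℕ) :
    (MvPolynomial.C a * H43.resc t ht (MvPolynomial.map (algebraMap k ℂ) f)).coeff α =
      a * (α.prod fun i n => t i ^ n) * algebraMap k ℂ (f.coeff α) := by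
  rw [MvPolynomial.coeff_C_mul, H43.coeff_resc, MvPolynomial.coeff_map, mul_assoc]

theorem prod_ne {σ : Type} {t : σ → ℂ} (ht : ∀ i, t i ≠ 0) (α : σ →₀ ℕ) :
    (α.prod fun i n => t i ^ n) ≠ 0 := by
  unfold Finsupp.prod
  exact Finset.prod_ne_zero_iff.2 (fun i _ => pow_ne_zero _ (ht i))

theorem supp_sc {k σ : Type} [Field k] [Algebra k ℂ] (f : MvPolynomial σ k) {a : ℂ} (ha : a ≠ 0)
    (t : σ → ℂ) (ht : ∀ i, t i ≠ 0) :
    (MvPolynomial.C a * H43.resc t ht (MvPolynomial.map (algebraMap k ℂ) f)).support =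
      f.support := by
  ext α
  rw [MvPolynomial.mem_support_iff, MvPolynomial.mem_support_iff, coeff_sc]
  constructor
  · intro h h2
    apply h
    rw [h2, map_zero, mul_zero]
  · intro h
    exact mul_ne_zero (mul_ne_zero ha (prod_ne ht α)) ((map_ne_zero _).2 h)

theorem ndp_of (h3 : TsiStmt) (h4 : TsdStmt) {k σ : Type} [Field k] [Algebra k ℂ] [Fintype σ]
    {f : MvPolynomial σ k} {a : ℂ} {t : σ → ℂ} (ht : ∀ i, t i ≠ 0) (ha : a ≠ 0)
    (h : NDP (MvPolynomial.C a * H43.resc t ht (MvPolynomial.map (algebraMap k ℂ) f))) :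
    NDP f := by
  intro I hI hne
  have hs := h I (by rw [supp_sc f ha t ht]; exact hI) hne
  rw [H49.ndt_part a t _ (H43.resc_X t ht), H49.ndt_part_map] at hs
  exact h4 k ℂ σ (part f I) (h3 σ a t _ ha ht (H43.resc_X t ht) _ hs)

/-- **the main theorem**, relative to the module statements -/
theorem main_good {KZ : Slp} (hZ : ZfinN KZ)
    (hTi : TsiStmt) (hTd : TsdStmt) (hBm : BsmStmt) (hBa : Helper8_CR.BautStmt) {k : Type} [Field k] [Algebra k ℂ]
    {σ : Type} [Fintype σ] {f : MvPolynomial σ k} (hf : ∀ c : k, f ≠ MvPolynomial.C c)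
    (hA : GoodK f) (hC : ∀ J, Conf f.support J) (hK : ∀ x : ℚ, x ≠ 1 → Killed f.support x → KZ σ f.support x) :
    Helper8_CR.Mon f := by
  classical
  have hinj : Function.Injective (algebraMap k ℂ) := (algebraMap k ℂ).injective
  have : CharZero k := (RingHom.charZero_iff hinj).2 inferInstance
  have hsupp : (MvPolynomial.map (algebraMap k ℂ) f).support = f.support :=
    MvPolynomial.support_map_of_injective _ hinj
  have hf0 : f ≠ 0 := by
    have := hf 0
    rwa [map_zero] at this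
  have hf' : ∀ c : ℂ, MvPolynomial.map (algebraMap k ℂ) f ≠ MvPolynomial.C c := by
    intro c hc
    have h1 : f.support ⊆ {0} := by
      rw [← hsupp, hc]
      intro α hα
      rw [MvPolynomial.mem_support_iff, MvPolynomial.coeff_C] at hα
      by_contra h2
      rw [Finset.mem_singleton] at h2
      rw [if_neg (Ne.symm h2)] at hα
      exact hα rfl
    apply hf (MvPolynomial.coeff 0 f)
    ext α
    rw [MvPolynomial.coeff_C]
    split_ifs with h2
    · rw [← h2]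
    · by_contra h3
      have h4 := h1 (MvPolynomial.mem_support_iff.2 h3)
      exact h2 (Finset.mem_singleton.1 h4).symm
  obtain ⟨a, t, ht, ha, hNDP, hRts⟩ := hA
  have hND : NDP f := ndp_of hTi hTd ht ha hNDP
  obtain ⟨B, hB⟩ : ∃ B : Set ℚ, B = {x | x ≠ 1 ∧ Killed f.support x} := ⟨_, rfl⟩
  obtain ⟨P, hP, hZ'⟩ := zeta_ratN hZ hf0 hND hC B (fun h => (hB ▸ h).1 rfl)
    (fun x hx => hK x (hB ▸ hx).1 (hB ▸ hx).2)
  have hroot : ∀ x ∈ (slopes f.support ∪ {1}) \ B,
      (bfun (MvPolynomial.map (algebraMap k ℂ) f)).eval (-(x : ℂ)) = 0 := by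
    rintro x ⟨-, hx⟩
    by_cases hx1 : x = 1
    · rw [hx1, Rat.cast_one]
      exact root_one hf'
    · have h1 : ¬ Killed f.support x := fun h => hx (hB ▸ ⟨hx1, h⟩)
      unfold Killed at h1
      push Not at h1
      obtain ⟨κ, N, Bs, hFB, hx2, hno⟩ := h1
      have h2 := hRts κ N Bs
      rw [supp_sc f ha t ht] at h2
      have h3 := h2 hFB.pos hFB.ge hFB.sub hFB.ne hFB.eq hFB.ind hFB.flat (by
        intro A hAB j hj1 hj2 hj3
        obtain ⟨l, hl, hlj⟩ := hno A hAB j ⟨hj1, hj2, hj3⟩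
        exact ⟨l, hlj, hl.1, hl.2.1, hl.2.2⟩)
      rw [hBm σ a ha, hBa σ σ (H43.resc t ht)] at h3
      have hN0 : (N : ℂ) ≠ 0 := by exact_mod_cast hFB.pos.ne'
      have h4 : (x : ℂ) = ((∑ i, κ i : ℕ) : ℂ) / (N : ℕ) := by
        rw [eq_div_iff hN0]
        have : (((∑ i, κ i : ℕ) : ℚ) : ℂ) = ((x * N : ℚ) : ℂ) := by rw [hx2]
        rw [Rat.cast_natCast, Rat.cast_mul, Rat.cast_natCast] at this
        exact this.symm
      rw [h4]
      exact h3
  refine ⟨P, fun p hp => ?_, hZ'⟩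
  obtain ⟨h1, h2, h3⟩ := hP p hp
  refine ⟨h2, ?_⟩
  have h4 := hroot _ h3
  have h5 : (-(((-((p.1 : ℚ) / (p.2 : ℚ)) : ℚ) : ℚ) : ℂ)) = (p.1 : ℂ) / (p.2 : ℂ) := by
    push_cast
    ring
  rw [h5] at h4
  exact h4


/-- the stable closure needs four stabilizations only -/
theorem stable_closure4 {k : Type} [Field k] [Algebra k ℂ]
    {σ τ : Type} [Finite σ] [Finite τ] (f : MvPolynomial σ k) (hf : ∀ c : k, f ≠ MvPolynomial.C c)
    (r : ℕ) (G : MvPolynomial τ k) (Φ : MvPolynomial τ k ≃ₐ[k] MvPolynomial (SV σ r) k)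
    (hG : Φ G = stab f r) (H : ∀ s : ℕ, 1 ≤ s → s ≤ 4 → Mon (stab G s)) : Mon f := by
  have hc : Nat.card (SV σ r) = Nat.card τ := by
    have h2 := ringKrullDim_eq_of_ringEquiv Φ.toRingEquiv
    rw [MvPolynomial.ringKrullDim_of_isNoetherianRing, MvPolynomial.ringKrullDim_of_isNoetherianRing,
      ringKrullDim_eq_zero_of_field, zero_add, zero_add] at h2
    exact_mod_cast h2.symm
  refine mon_of_stab serStmt H86.alg H87.zmap bfinStmt f hf r fun r' h1 h2 => ?_
  obtain ⟨s, hs⟩ : ∃ s, r' + 1 = r + s := ⟨r' + 1 - r, by omega⟩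
  rw [hs]
  obtain ⟨Θ, hΘ, -⟩ := H34.ren.1 k σ f r s
  obtain ⟨Ψ, hΨ⟩ := H34.ren.2 k (SV σ r) τ Φ G s
  rw [← hΘ]
  refine mon_iso isozStmt bautStmt ?_ Θ _ ?_
  · rw [card_SV, card_SV, card_SV]
    omega
  · rw [← hG, ← hΨ]
    refine mon_iso isozStmt bautStmt ?_ Ψ _ (H s (by omega) (by omega))
    rw [card_SV (SV σ r) s, card_SV τ s, hc]

end Pool.Agent.GEN.H56
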