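import Pool.Agent.Helper56_GEN.TorD
import Pool.Agent.Helper98_GEN.STB

/-!
# Squad GEN: Zariski generic coefficients and stabilizations
-/

set_option autoImplicit false
set_option linter.unusedVariables false

namespace Pool.Agent.GEN.H56

open Finset Pool.Agent.Helper6_Mono Pool.Agent.Helper30_Simp
  Pool.Agent.Helper30_Simp2 Pool.Agent.GEN Pool.Agent.Helper8_CR

/-- a nonzero polynomial in two groups of variables stays nonzero for suitable nonzero rational
values of the second group -/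
theorem exists_coef {ι : Type} (s : ℕ) (P : MvPolynomial (ι ⊕ Fin s) ℚ) (hP : P ≠ 0) :
    ∃ Q : MvPolynomial ι ℚ, Q ≠ 0 ∧ ∀ c : ι → ℂ, MvPolynomial.aeval c Q ≠ 0 →
      ∃ d : Fin s → ℂ, (∀ j, d j ≠ 0) ∧ MvPolynomial.aeval (Sum.elim c d) P ≠ 0 := by
  classical
  obtain ⟨P1, hP1d⟩ : ∃ P1 : MvPolynomial (ι ⊕ Fin s) ℚ,
      P1 = P * ∏ j : Fin s, MvPolynomial.X (Sum.inr j) := ⟨_, rfl⟩
  have hP1 : P1 ≠ 0 := by
    rw [hP1d]
    exact mul_ne_zero hP (Finset.prod_ne_zero_iff.2 fun j _ => MvPolynomial.X_ne_zero _)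
  obtain ⟨x, hx⟩ : ∃ x : ι ⊕ Fin s → ℚ, MvPolynomial.eval x P1 ≠ 0 := by
    by_contra hcon
    push Not at hcon
    apply hP1
    apply MvPolynomial.funext
    intro x
    rw [hcon x, map_zero]
  have hd0 : ∀ j : Fin s, x (Sum.inr j) ≠ 0 := by
    intro j h0
    apply hx
    rw [hP1d, map_mul, map_prod, Finset.prod_eq_zero (Finset.mem_univ j), mul_zero]
    rw [MvPolynomial.eval_X, h0]
  have hxP : MvPolynomial.eval x P ≠ 0 := by
    intro h0
    apply hx
    rw [hP1d, map_mul, h0, zero_mul]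
  refine ⟨MvPolynomial.aeval (Sum.elim (fun i => MvPolynomial.X i)
    (fun j => MvPolynomial.C (x (Sum.inr j)))) P, ?_, ?_⟩
  · intro h0
    apply hxP
    have h1 : MvPolynomial.eval (fun i => x (Sum.inl i)) (MvPolynomial.aeval
        (Sum.elim (fun i => (MvPolynomial.X i : MvPolynomial ι ℚ))
          (fun j => MvPolynomial.C (x (Sum.inr j)))) P) = MvPolynomial.eval x P := by
      have e1 : (MvPolynomial.aeval (fun i => x (Sum.inl i)) : MvPolynomial ι ℚ →ₐ[ℚ] ℚ).comp
          (MvPolynomial.aeval (Sum.elim (fun i => (MvPolynomial.X i : MvPolynomial ι ℚ))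
            (fun j => MvPolynomial.C (x (Sum.inr j))))) = MvPolynomial.aeval x := by
        apply MvPolynomial.algHom_ext
        rintro (i | j)
        · simp
        · simp
      have e2 := congrArg (fun φ : MvPolynomial (ι ⊕ Fin s) ℚ →ₐ[ℚ] ℚ => φ P) e1
      simpa [MvPolynomial.aeval_eq_eval] using e2
    rw [← h1, h0, map_zero]
  · intro c hc
    refine ⟨fun j => ((x (Sum.inr j) : ℚ) : ℂ), fun j => Rat.cast_ne_zero.2 (hd0 j), ?_⟩
    intro h0
    apply hc
    have e1 : (MvPolynomial.aeval c : MvPolynomial ι ℚ →ₐ[ℚ] ℂ).comp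
        (MvPolynomial.aeval (Sum.elim (fun i => (MvPolynomial.X i : MvPolynomial ι ℚ))
          (fun j => MvPolynomial.C (x (Sum.inr j)))))
        = MvPolynomial.aeval (Sum.elim c fun j => ((x (Sum.inr j) : ℚ) : ℂ)) := by
      apply MvPolynomial.algHom_ext
      rintro (i | j)
      · simp
      · simp
    have e2 := congrArg (fun φ : MvPolynomial (ι ⊕ Fin s) ℚ →ₐ[ℚ] ℂ => φ P) e1
    rw [h0] at e2
    exact e2

/-- the exponents of the stabilization of a polynomial with support `M` -/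
noncomputable def gM {τ : Type} (M : Finset (τ →₀ ℕ)) (s : ℕ) : M ⊕ Fin s → (SV τ s →₀ ℕ) :=
  Sum.elim (fun α => Finsupp.mapDomain Sum.inl (α : τ →₀ ℕ)) (fun j => H98.ej τ j)

theorem gM_inj {τ : Type} (M : Finset (τ →₀ ℕ)) (s : ℕ) : Function.Injective (gM M s) := by
  rintro (α | i) (β | j) h
  · have h1 : Finsupp.mapDomain (Sum.inl : τ → SV τ s) (α : τ →₀ ℕ)
        = Finsupp.mapDomain Sum.inl (β : τ →₀ ℕ) := h
    have h2 := Finsupp.mapDomain_injective Sum.inl_injective h1
    rw [Subtype.ext h2]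
  · exact absurd h.symm (H98.md_ne (σ := τ) (α : τ →₀ ℕ) j)
  · exact absurd h (H98.md_ne (σ := τ) (β : τ →₀ ℕ) i)
  · have h1 : H98.ej τ i = H98.ej τ j := h
    rw [H98.ej_inj h1]

open scoped Classical in
theorem supp_stab {τ k : Type} [Field k] (G : MvPolynomial τ k) (M : Finset (τ →₀ ℕ))
    (hM : G.support = M) (s : ℕ) :
    (stab G s).support = Finset.univ.image (gM M s) := by
  subst hM
  ext β
  rw [Finset.mem_image]
  constructor
  · intro hβ
    obtain ⟨x, hx⟩ := H98.gx_surj G s β hβ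
    exact ⟨x, Finset.mem_univ x, hx⟩
  · rintro ⟨x, -, rfl⟩
    rw [MvPolynomial.mem_support_iff]
    rcases x with α | j
    · show MvPolynomial.coeff (Finsupp.mapDomain (Sum.inl : τ → SV τ s) (α : τ →₀ ℕ))
        (stab G s) ≠ 0
      rw [H98.coeff_md]
      exact MvPolynomial.mem_support_iff.1 α.2
    · show MvPolynomial.coeff (H98.ej τ j) (stab G s) ≠ 0
      rw [H98.coeff_ej]
      exact one_ne_zero

/-- generic rescaled coefficients give good stabilizations -/
theorem gen_stab (hG : GncStmt) {τ : Type} [Fintype τ] (M : Finset (τ →₀ ℕ)) (s : ℕ) :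
    ∃ H : MvPolynomial M ℚ, H ≠ 0 ∧ ∀ (k : Type) [Field k] [Algebra k ℂ] (G : MvPolynomial τ k),
      G.support = M → ∀ (a : ℂ) (t : τ → ℂ), a ≠ 0 → (∀ i, t i ≠ 0) →
      MvPolynomial.aeval (fun α : M => a * ((α : τ →₀ ℕ).prod fun i n => t i ^ n) *
        algebraMap k ℂ (G.coeff (α : τ →₀ ℕ))) H ≠ 0 → GoodK (stab G s) := by
  classical
  obtain ⟨H', hH', hgood⟩ := hG (SV τ s) (Finset.univ.image (gM M s))
  let e : M ⊕ Fin s ≃ (Finset.univ.image (gM M s) : Finset (SV τ s →₀ ℕ)) :=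
    Equiv.ofBijective (fun x => ⟨gM M s x, Finset.mem_image_of_mem _ (Finset.mem_univ x)⟩)
      ⟨fun x y h => gM_inj M s (congrArg Subtype.val h), fun β => by
        obtain ⟨x, -, hx⟩ := Finset.mem_image.1 β.2
        exact ⟨x, Subtype.ext hx⟩⟩
  have he : ∀ x, ((e x : (Finset.univ.image (gM M s) : Finset (SV τ s →₀ ℕ))) : SV τ s →₀ ℕ)
      = gM M s x := fun x => rfl
  obtain ⟨Q, hQ, hQ2⟩ := exists_coef s (MvPolynomial.rename e.symm H') (by
    intro h0
    apply hH'
    exact MvPolynomial.rename_injective _ e.symm.injective (by rw [h0, map_zero]))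
  refine ⟨Q, hQ, ?_⟩
  intro k _ _ G hM a t ha ht hc
  obtain ⟨d, hd, hd2⟩ := hQ2 _ hc
  let t' : SV τ s → ℂ := Sum.elim t (Sum.elim (fun j => d j / a) (fun _ => 1))
  have ht' : ∀ i, t' i ≠ 0 := by
    rintro (i | j | j)
    · exact ht i
    · exact div_ne_zero (hd j) ha
    · exact one_ne_zero
  refine ⟨a, t', ht', ha, hgood _ ?_ ?_⟩
  · rw [supp_sc _ ha t' ht', supp_stab G M hM s]
  · have hval : ∀ x : M ⊕ Fin s,
        (MvPolynomial.C a * H43.resc t' ht' (MvPolynomial.map (algebraMap k ℂ) (stab G s))).coeff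
          (gM M s x) = Sum.elim (fun α : M => a * ((α : τ →₀ ℕ).prod fun i n => t i ^ n) *
            algebraMap k ℂ (G.coeff (α : τ →₀ ℕ))) d x := by
      intro x
      rw [coeff_sc]
      rcases x with α | j
      · show a * ((Finsupp.mapDomain (Sum.inl : τ → SV τ s) (α : τ →₀ ℕ)).prod
          fun i n => t' i ^ n) * algebraMap k ℂ ((stab G s).coeff
            (Finsupp.mapDomain (Sum.inl : τ → SV τ s) (α : τ →₀ ℕ)))
          = a * ((α : τ →₀ ℕ).prod fun i n => t i ^ n) * algebraMap k ℂ (G.coeff (α : τ →₀ ℕ))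
        rw [H98.coeff_md, Finsupp.prod_mapDomain_index_inj Sum.inl_injective]
        rfl
      · show a * ((H98.ej τ j).prod fun i n => t' i ^ n) *
          algebraMap k ℂ ((stab G s).coeff (H98.ej τ j)) = d j
        rw [H98.coeff_ej, map_one, mul_one]
        have h1 : (H98.ej τ j).prod (fun i n => t' i ^ n) = d j / a := by
          unfold H98.ej
          rw [Finsupp.prod_add_index' (fun i => pow_zero _) (fun i m n => pow_add _ _ _),
            Finsupp.prod_single_index (h := fun i n => t' i ^ n) (pow_zero _),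
            Finsupp.prod_single_index (h := fun i n => t' i ^ n) (pow_zero _), pow_one, pow_one]
          show d j / a * 1 = d j / a
          rw [mul_one]
        rw [h1, mul_div_cancel₀ _ ha]
    have h2 : MvPolynomial.aeval (Sum.elim (fun α : M => a * ((α : τ →₀ ℕ).prod
        fun i n => t i ^ n) * algebraMap k ℂ (G.coeff (α : τ →₀ ℕ))) d)
          (MvPolynomial.rename e.symm H') = MvPolynomial.aeval
        (fun β : (Finset.univ.image (gM M s) : Finset (SV τ s →₀ ℕ)) =>
          (MvPolynomial.C a * H43.resc t' ht'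
            (MvPolynomial.map (algebraMap k ℂ) (stab G s))).coeff (β : SV τ s →₀ ℕ)) H' := by
      rw [MvPolynomial.aeval_rename]
      congr 1
      congr 1
      funext β
      rw [Function.comp_apply, ← hval]
      congr 1
      rw [← he, Equiv.apply_symm_apply]
    rw [← h2]
    exact hd2

/-- **the final theorem**: Zariski generic coefficients, all supports, stable form -/
theorem main_generic (hGn : GncStmt) (hK : KpiStmt) (hZ : ZaiStmt) (hE : EmnStmt)
    (hTi : TsiStmt) (hTd : TsdStmt) (hBm : BsmStmt) (τ : Type) [Fintype τ]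
    (M : Finset (τ →₀ ℕ)) : ∃ H : MvPolynomial M ℚ, H ≠ 0 ∧
      ∀ (k : Type) [Field k] [Algebra k ℂ] (G : MvPolynomial τ k), G.support = M →
      ∀ (a : ℂ) (t : τ → ℂ), a ≠ 0 → (∀ i, t i ≠ 0) →
      MvPolynomial.aeval (fun α : M => a * ((α : τ →₀ ℕ).prod fun i n => t i ^ n) *
        algebraMap k ℂ (G.coeff (α : τ →₀ ℕ))) H ≠ 0 →
      ∀ (σ : Type) [Finite σ] (f : MvPolynomial σ k), (∀ c : k, f ≠ MvPolynomial.C c) →
      ∀ (r : ℕ) (Φ : MvPolynomial τ k ≃ₐ[k] MvPolynomial (SV σ r) k), Φ G = stab f r → Mon f := by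
  choose H hH hH2 using fun s : ℕ => gen_stab hGn M s
  refine ⟨∏ s ∈ Finset.range 5, H s, Finset.prod_ne_zero_iff.2 fun s _ => hH s, ?_⟩
  intro k _ _ G hM a t ha ht hc σ _ f hf r Φ hΦ
  have hGc : ∀ c : k, G ≠ MvPolynomial.C c := iso_ne_C Φ (by rw [hΦ]; exact stab_ne_C hf r)
  refine stable_closure4 f hf r G Φ hΦ fun s hs1 hs4 => ?_
  rw [map_prod] at hc
  have h1 := Finset.prod_ne_zero_iff.1 hc s (Finset.mem_range.2 (by omega))
  exact main_good (zfinNI hE hZ) hTi hTd hBm bautStmt (stab_ne_C hGc s)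
    (hH2 s k G hM a t ha ht h1) (fun J => cngStmt _ (stab G s).support J)
    fun x _ hk => hK _ (stab G s).support x hk

end Pool.Agent.GEN.H56
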